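import Pool.Agent.Q135.SP.CapVal

/-!
# (Y4) Capture
-/

set_option autoImplicit false
set_option linter.unusedVariables false
set_option linter.unusedSectionVars false

namespace Pool.Agent.Q135.SP

open Finset Polynomial
open Pool.Agent.Q41.SU Pool.Agent.Q41.SP
open Pool.Agent.Q177.SU (coord_pp res_ne app_ne isPl_nonneg isPl_comp)
open Pool.Agent.W277.UH (ConjConst)

universe u

/-- the choice of the parameters -/
lemma params (l d N₁ F Wt : ℕ) (c' η : ℝ) (hl : 2 ≤ l) (hd : 2 ≤ d) (hc : 0 < c') (hη : 0 < η) :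
    ∃ (n₁ nB j₁ NB : ℕ) (c : ℝ), 0 < c ∧ c ≤ c' ∧ 17 * (c + 4 / (d : ℝ) ^ n₁) ≤ η / 2 ∧
      2 * (F : ℝ) * Wt * (31680 * (d : ℝ) ^ n₁) ≤ (l : ℝ) ^ j₁ * η ∧
      8 * F * Wt * (1 / (d : ℝ) ^ nB) ≤ c ∧ n₁ ≤ nB ∧ N₁ ≤ NB ∧ 4 ≤ NB ∧
      d ^ (2 * nB) ≤ NB := by
  have hd' : (1 : ℝ) < d := by exact_mod_cast (by omega : 1 < d)
  have hl' : (1 : ℝ) < l := by exact_mod_cast (by omega : 1 < l)
  have hd0 : (0 : ℝ) < d := by linarith
  obtain ⟨n₁, hn₁⟩ := pow_unbounded_of_one_lt (272 / η) hd'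
  set c := min c' (η / 68) with hcdef
  have hc0 : 0 < c := lt_min hc (by positivity)
  obtain ⟨j₁, hj₁⟩ := pow_unbounded_of_one_lt (2 * (F : ℝ) * Wt * (31680 * (d : ℝ) ^ n₁) / η) hl'
  obtain ⟨n₂, hn₂⟩ := pow_unbounded_of_one_lt (8 * (F : ℝ) * Wt / c) hd'
  refine ⟨n₁, max n₁ n₂, j₁, max (max N₁ 4) (d ^ (2 * max n₁ n₂)), c, hc0, min_le_left _ _, ?_,
    ?_, ?_, le_max_left _ _, (le_max_left _ _).trans (le_max_left _ _),
    (le_max_right _ _).trans (le_max_left _ _), le_max_right _ _⟩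
  · have h1 : c ≤ η / 68 := min_le_right _ _
    have h2 : 4 / (d : ℝ) ^ n₁ ≤ η / 68 := by
      rw [div_le_iff₀ (by positivity)]
      rw [div_lt_iff₀ hη] at hn₁
      linarith
    linarith
  · rw [div_lt_iff₀ hη] at hj₁
    exact hj₁.le
  · rw [div_lt_iff₀ hc0] at hn₂
    rw [mul_one_div, div_le_iff₀ (by positivity)]
    have h1 : (d : ℝ) ^ n₂ ≤ (d : ℝ) ^ max n₁ n₂ := pow_le_pow_right₀ hd'.le (le_max_right _ _)
    nlinarith

lemma card_bound {A Γ : Type*} [Fintype Γ] (S : Finset A) (e : A → ℕ) (F : ℕ)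
    (he : ∀ t ∈ S, 1 ≤ e t ∧ e t ≤ F) (R : A → Γ → ℕ) (hR : ∀ t ∈ S, ∃ g, 1 ≤ R t g) :
    (S.card : ℝ) ≤ F * ∑ t ∈ S, ∑ g, (R t g : ℝ) / e t := by
  have h1 : ∀ t ∈ S, (1 : ℝ) ≤ F * ∑ g, (R t g : ℝ) / e t := by
    intro t ht
    obtain ⟨g, hg⟩ := hR t ht
    have he0 : (0 : ℝ) < e t := by exact_mod_cast (he t ht).1
    have heF : (e t : ℝ) ≤ F := by exact_mod_cast (he t ht).2
    have hg' : (1 : ℝ) ≤ R t g := by exact_mod_cast hg
    have h2 : (R t g : ℝ) / e t ≤ ∑ g, (R t g : ℝ) / e t :=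
      Finset.single_le_sum (f := fun g => (R t g : ℝ) / e t) (fun g _ => by positivity)
        (Finset.mem_univ g)
    have h3 : (1 : ℝ) ≤ (F : ℝ) * (R t g / e t) := by
      rw [mul_div_assoc', le_div_iff₀ he0]
      nlinarith
    have h4 : (0 : ℝ) ≤ F := Nat.cast_nonneg _
    nlinarith
  calc (S.card : ℝ) = ∑ t ∈ S, (1 : ℝ) := by simp
    _ ≤ ∑ t ∈ S, (F : ℝ) * ∑ g, (R t g : ℝ) / e t := Finset.sum_le_sum h1
    _ = _ := by rw [Finset.mul_sum]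

/-- the sum over the pairs of a family with vanishing global sums -/
lemma sum_pairs {A Γ J : Type*} [Fintype Γ] [Fintype J] [DecidableEq J] (S₀ : Finset A)
    (f : A → Γ → J → J → ℝ) (e : A → ℕ)
    (h : ∀ l l' : J, l ≠ l' → ∑ t₀ ∈ S₀, ∑ g : Γ, f t₀ g l l' / e t₀ = 0) :
    ∑ t₀ ∈ S₀, ∑ g : Γ, (∑ l, ∑ l' ∈ univ.erase l, f t₀ g l l') / e t₀ = 0 := by
  calc ∑ t₀ ∈ S₀, ∑ g : Γ, (∑ l, ∑ l' ∈ univ.erase l, f t₀ g l l') / e t₀
      = ∑ t₀ ∈ S₀, ∑ g : Γ, ∑ l, ∑ l' ∈ univ.erase l, f t₀ g l l' / e t₀ := by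
        refine Finset.sum_congr rfl fun t₀ _ => Finset.sum_congr rfl fun g _ => ?_
        rw [Finset.sum_div]
        exact Finset.sum_congr rfl fun l _ => by rw [Finset.sum_div]
    _ = ∑ t₀ ∈ S₀, ∑ l, ∑ l' ∈ univ.erase l, ∑ g : Γ, f t₀ g l l' / e t₀ := by
        refine Finset.sum_congr rfl fun t₀ _ => ?_
        rw [Finset.sum_comm]
        refine Finset.sum_congr rfl fun l _ => ?_
        rw [Finset.sum_comm]
    _ = ∑ l, ∑ l' ∈ univ.erase l, ∑ t₀ ∈ S₀, ∑ g : Γ, f t₀ g l l' / e t₀ := by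
        rw [Finset.sum_comm]
        refine Finset.sum_congr rfl fun l _ => ?_
        rw [Finset.sum_comm]
    _ = 0 := Finset.sum_eq_zero fun l _ => Finset.sum_eq_zero fun l' hl' =>
        h l l' (Finset.ne_of_mem_erase hl').symm

theorem capP (hhs : S_hsP.{u}) (hloc : S_locP.{u}) (hnc : S_ncP.{u}) (hmi : S_miP.{u})
    (hquad : S_quad) (hamb : S_amb.{u}) (hemb : S_emb.{u}) (hpl : S_pl.{u}) (hfin : S_fin.{u})
    (hcoord : S_coord.{u}) (hglob : S_glob.{u}) (hni : S_ni.{u}) : S_capP.{u} := by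
  intro l d ν hl hd hν
  obtain ⟨N₁, c', η, hc0, hc1, hη, hL⟩ := hloc d hd
  obtain ⟨b, hb, Hb⟩ := hnc l d ν (max N₁ (3 * d + 4)) c' η hl.two_le hd hν hc0 hc1 hη
  refine ⟨b, hb, fun C₀ => ?_⟩
  obtain ⟨J, r, n, hJ, hN1, hdn, hN⟩ := Hb (C₀ * ν.factorial)
  refine ⟨J, r, hJ, fun Wt hWt => ?_⟩
  obtain ⟨n₁, nB, j₁, NB, c, hc, hcc', hpar1, hpar2, hpar3, hn1B, hN1B, h4B, hdB⟩ :=
    params l d N₁ ν.factorial Wt c' η hl.two_le hd hc0 hη
  refine ⟨NB, j₁, ?_⟩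
  intro k E _ _ _ _ _ _ _ t G _ hG hcard p q hp hq hco P hP hiso hB hrows
  classical
  obtain ⟨Λ, iN, iU, iA, iAlg, s, hΛ⟩ := hamb k
  have hres : resultant q p d d ≠ 0 := res_ne d p q hp hq (by omega) hco
  let Y : Finset E := (P.filter (· ≠ 0) ∪ P.image (fun z => q.eval z)) ∪
    (((P ×ˢ P).filter (fun z => z.1 ≠ z.2)).image (fun z => z.1 - z.2) ∪
      {resultant q p d d})
  have hY : ∀ y ∈ Y, y ≠ 0 := by
    intro y hy
    rcases Finset.mem_union.1 hy with h | h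
    · rcases Finset.mem_union.1 h with h | h
      · exact (Finset.mem_filter.1 h).2
      · obtain ⟨z, hz, rfl⟩ := Finset.mem_image.1 h
        exact (hP z hz).1
    · rcases Finset.mem_union.1 h with h | h
      · obtain ⟨z, hz, rfl⟩ := Finset.mem_image.1 h
        exact sub_ne_zero.2 (Finset.mem_filter.1 hz).2
      · rw [Finset.mem_singleton.1 h]
        exact hres
  obtain ⟨t', hG', pp, he, S₀, hU⟩ := coord_pp hemb hpl hfin hcoord hΛ hG Y hY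
  have hUd : ∀ z ∈ P, ∀ z' ∈ P, z ≠ z' → pp.Unit G S₀ (z - z') := by
    intro z hz z' hz' hne
    refine hU _ (Finset.mem_union_right _ (Finset.mem_union_left _ ?_))
    exact Finset.mem_image.2 ⟨(z, z'), Finset.mem_filter.2 ⟨Finset.mk_mem_product hz hz', hne⟩, rfl⟩
  have hUq : ∀ z ∈ P, pp.Unit G S₀ (q.eval z) := fun z hz =>
    hU _ (Finset.mem_union_left _ (Finset.mem_union_right _ (Finset.mem_image_of_mem _ hz)))
  have hUr : pp.Unit G S₀ (resultant q p d d) :=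
    hU _ (Finset.mem_union_right _ (Finset.mem_union_right _ (Finset.mem_singleton_self _)))
  have hUi : ∀ z ∈ P, pp.Int G S₀ z := by
    intro z hz
    by_cases h0 : z = 0
    · subst h0
      exact ⟨fun t₀ _ g _ => by simp, fun g _ => by simp⟩
    · have h1 := hU z (Finset.mem_union_left _ (Finset.mem_union_left _
        (Finset.mem_filter.2 ⟨hz, h0⟩)))
      exact ⟨fun t₀ h g hg => (h1.1 t₀ h g hg).le, fun g hg => (h1.2 g hg).le⟩
  -- the rows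
  obtain ⟨τ, D, hτD, -, hτt, hτg, -⟩ := hhs l k E t' G hG'
  obtain ⟨x, hxi, hxP, hxΓ⟩ := hrows t' τ D hτD hG' hτt hτg
  have hcJ : Fintype.card (II (J * l ^ r * b) b) = (J * l ^ r * b + 1) * (b + 1) := by simp
  have hcP : 3 * d + 4 ≤ P.card := by
    have h1 : Fintype.card (II (J * l ^ r * b) b) ≤ P.card := by
      rw [← Finset.card_univ]
      exact Finset.card_le_card_of_injOn x (fun i _ => hxP i) (fun i _ j _ h => hxi h)
    rw [hcJ] at h1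
    exact ((le_max_right _ _).trans hN1).trans h1
  obtain ⟨al, hal, hsum⟩ := hglob k E Λ t' s G hΛ hG' pp S₀ d hd p q P hP hres hUr hUq hUd
  -- the local theorem
  have hloc' := fun (t₀ : k) (g : G) => hL k E Λ hΛ.norm_c
    ((pp.ι t₀).comp ((g : E ≃ₐ[k] E) : E →ₐ[k] E)) (pp.e t₀)
    (fun y => pp.u t₀ ((g : E ≃ₐ[k] E) y)) (isPl_comp (pp.pl t₀) g) p q hp hq hco P hP (al t₀ g)
    (hal t₀ g)
  choose R hR1 hR2 hR3 using hloc'
  let S : Finset k := S₀.filter (fun t₀ => ∃ g, 1 ≤ R t₀ g)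
  have hSS : S ⊆ S₀ := Finset.filter_subset _ _
  have hR0 : ∀ t₀ ∈ S₀, t₀ ∉ S → ∀ g, R t₀ g = 0 := by
    intro t₀ h1 h2 g
    by_contra h3
    exact h2 (Finset.mem_filter.2 ⟨h1, g, Nat.one_le_iff_ne_zero.2 h3⟩)
  have hSR : ∀ t₀ ∈ S, ∃ g, 1 ≤ R t₀ g := fun t₀ ht₀ => (Finset.mem_filter.1 ht₀).2
  have hSne : S.Nonempty := by
    by_contra hemp
    rw [Finset.not_nonempty_iff_eq_empty] at hemp
    have hcr := hni k E Λ t' s G hΛ hG' pp S₀ P hUd
      (fun t₀ g z z' => gg (fun y => pp.u t₀ ((g : E ≃ₐ[k] E) y)) (al t₀ g) d p q z z') hsum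
      (fun t₀ ht g => hR2 t₀ g (hR0 t₀ ht (by rw [hemp]; simp) g))
    apply hiso
    refine Pool.Agent.W277.UH.conj_of_cross p q d hp hq hd hco P hP P subset_rfl hcr ?_
    rw [Finset.sdiff_self, Finset.card_empty, mul_zero, zero_add]
    exact hcP
  have heS : ∀ t₀ ∈ S₀, 1 ≤ pp.e t₀ ∧ pp.e t₀ ≤ ν.factorial := fun t₀ _ =>
    ⟨(pp.pl t₀).he, hcard ▸ he t₀⟩
  -- the number of the bad places
  have hcap : (S.card : ℝ) * Wt ≤ ν.factorial * ∑ t₀ ∈ S, ∑ g, (R t₀ g : ℝ) / pp.e t₀ := by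
    rcases hB with hW1 | ⟨B, hBP, hBN, hBr⟩
    · rw [hW1, Nat.cast_one, mul_one]
      exact card_bound S pp.e ν.factorial (fun t₀ h => heS t₀ (hSS h)) R hSR
    · have hf1 : 1 ≤ ν.factorial := Nat.one_le_iff_ne_zero.2 (Nat.factorial_ne_zero _)
      have hf1' : (1 : ℝ) ≤ ν.factorial := by exact_mod_cast hf1
      have hE0 : 0 ≤ ∑ t₀ ∈ S, ∑ g, (R t₀ g : ℝ) / pp.e t₀ :=
        Finset.sum_nonneg fun t _ => Finset.sum_nonneg fun g _ => by positivity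
      let y : Fin B.card → E := fun i => (B.equivFin.symm i : E)
      have hyi : Function.Injective y := Subtype.val_injective.comp B.equivFin.symm.injective
      have hyB : ∀ i, y i ∈ B := fun i => (B.equivFin.symm i).2
      have hyP : ∀ i, y i ∈ P := fun i => hBP (hyB i)
      have hcB : Fintype.card (Fin B.card) = B.card := Fintype.card_fin _
      have hB4 : 4 ≤ Fintype.card (Fin B.card) := by rw [hcB]; omega
      have hd1 : (1 : ℝ) ≤ d := by exact_mod_cast (by omega : 1 ≤ d)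
      have hdB' : (d : ℝ) ^ (2 * nB) ≤ Fintype.card (Fin B.card) := by
        rw [hcB]
        exact_mod_cast hdB.trans hBN
      have hdB1 : (d : ℝ) ^ (2 * n₁) ≤ Fintype.card (Fin B.card) :=
        (pow_le_pow_right₀ hd1 (by omega)).trans hdB'
      have hX0 : (0 : ℝ) < (Fintype.card (Fin B.card) : ℝ) ^ 2 := by
        have : (0 : ℝ) < (Fintype.card (Fin B.card) : ℝ) := by exact_mod_cast (by omega)
        positivity
      have key := num_cap S S₀ hSS pp.e ν.factorial heS R hSR Wt hWt hf1 c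
        (1 / (d : ℝ) ^ nB) ((Fintype.card (Fin B.card) : ℝ) ^ 2) hc hX0 (by positivity)
        (fun t₀ g => ∑ i, ∑ i' ∈ univ.erase i,
          gg (fun y => pp.u t₀ ((g : E ≃ₐ[k] E) y)) (al t₀ g) d p q (y i) (y i'))
        (sum_pairs S₀ (fun (t₀ : k) (g : G) i i' =>
          gg (fun y => pp.u t₀ ((g : E ≃ₐ[k] E) y)) (al t₀ g) d p q (y i) (y i')) pp.e
          (fun i i' hii => hsum _ (hyP i) _ (hyP i') (fun h => hii (hyi h))))
        (by
          intro t₀ _ g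
          have h1 := hR1 t₀ g (Fin B.card) y hyi hyP nB hdB'
          refine le_trans (le_of_eq ?_) h1
          ring)
        (by
          intro t₀ ht₀ hts g
          have h1 := hR1 t₀ g (Fin B.card) y hyi hyP nB hdB'
          rw [hR0 t₀ ht₀ hts g] at h1
          simpa using h1)
        hpar3
        (by
          intro t₀ ht₀ g hRg hEn
          obtain ⟨m, hm1, hm2, hm3, hm4, hm5⟩ := hR3 t₀ g (Fin B.card) y hyi hyP
            (by rw [hcB]; omega)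
          have hRg' : (1 : ℝ) ≤ R t₀ g := by exact_mod_cast hRg
          have hXR : 0 ≤ (Fintype.card (Fin B.card) : ℝ) ^ 2 * R t₀ g := by positivity
          obtain ⟨hlow, hup⟩ := hm4 hRg (hEn.trans (by gcongr))
          have htr := hm5 n₁ hdB1
          have htr' : ∑ i, ∑ i' ∈ univ.erase i,
              max 0 ((pp.u t₀ ((g : E ≃ₐ[k] E) (m.app (y i) - m.app (y i'))) : ℝ) -
                33 * (d : ℝ) ^ n₁ * R t₀ g) ≤
              η / 2 * (Fintype.card (Fin B.card) : ℝ) ^ 2 * R t₀ g := by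
            refine htr.trans ?_
            calc 17 * (∑ i, ∑ i' ∈ univ.erase i,
                  gg (fun y => pp.u t₀ ((g : E ≃ₐ[k] E) y)) (al t₀ g) d p q (y i) (y i') +
                  4 * (Fintype.card (Fin B.card) : ℝ) ^ 2 * R t₀ g / (d : ℝ) ^ n₁)
                ≤ 17 * (c * (Fintype.card (Fin B.card) : ℝ) ^ 2 * R t₀ g +
                  4 * (Fintype.card (Fin B.card) : ℝ) ^ 2 * R t₀ g / (d : ℝ) ^ n₁) := by
                  gcongr
              _ = 17 * (c + 4 / (d : ℝ) ^ n₁) * ((Fintype.card (Fin B.card) : ℝ) ^ 2 * R t₀ g) := by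
                  ring
              _ ≤ η / 2 * ((Fintype.card (Fin B.card) : ℝ) ^ 2 * R t₀ g) := by gcongr
              _ = _ := by ring
          have h1 := place_R hquad (isPl_comp (pp.pl t₀) g) l j₁ m hm1 y hyi hm2
            (fun i => hBr _ (hyB i)) hm3 hB4 (R t₀ g) hRg ((d : ℝ) ^ n₁) η (by positivity)
            hlow hup htr'
          have h2 : 31680 * (d : ℝ) ^ n₁ * (2 * (ν.factorial : ℝ) * Wt) ≤
              31680 * (d : ℝ) ^ n₁ * R t₀ g := by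
            calc 31680 * (d : ℝ) ^ n₁ * (2 * (ν.factorial : ℝ) * Wt)
                = 2 * (ν.factorial : ℝ) * Wt * (31680 * (d : ℝ) ^ n₁) := by ring
              _ ≤ (l : ℝ) ^ j₁ * η := hpar2
              _ ≤ _ := h1
          exact le_of_mul_le_mul_left h2 (by positivity))
      refine key.trans ?_
      nlinarith
  -- the Moebius maps
  have : Nonempty (Mb E) := ⟨⟨0, 0, 0, 0⟩⟩
  have hm : ∀ t₀ ∈ S₀, ∀ g : G, ∃ m : Mb E, m.det ≠ 0 ∧ (∀ i, m.den (x i) ≠ 0) ∧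
      (∀ i, ‖pp.ι t₀ ((g : E ≃ₐ[k] E) (m.app (x i)))‖ ≤ 1) ∧
      (t₀ ∉ S → ∀ i i', i ≠ i' →
        (pp.u t₀ ((g : E ≃ₐ[k] E) (m.app (x i) - m.app (x i'))) : ℝ) =
          gg (fun y => pp.u t₀ ((g : E ≃ₐ[k] E) y)) (al t₀ g) d p q (x i) (x i')) ∧
      (t₀ ∈ S → (∀ i, 2 * cnt (fun i i' =>
          pp.u t₀ ((g : E ≃ₐ[k] E) (m.app (x i) - m.app (x i')))) 1 i ≤
            Fintype.card (II (J * l ^ r * b) b)) ∧
        (1 ≤ R t₀ g → ∑ i, ∑ i' ∈ univ.erase i,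
            gg (fun y => pp.u t₀ ((g : E ≃ₐ[k] E) y)) (al t₀ g) d p q (x i) (x i') ≤
            c' * (Fintype.card (II (J * l ^ r * b) b) : ℝ) ^ 2 * R t₀ g →
            η * (Fintype.card (II (J * l ^ r * b) b) : ℝ) ^ 2 * R t₀ g ≤
              ∑ i, ∑ i' ∈ univ.erase i,
                (pp.u t₀ ((g : E ≃ₐ[k] E) (m.app (x i) - m.app (x i'))) : ℝ)) ∧
        ∑ i, ∑ i' ∈ univ.erase i,
            max 0 ((pp.u t₀ ((g : E ≃ₐ[k] E) (m.app (x i) - m.app (x i'))) : ℝ) -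
              33 * (d : ℝ) ^ n * R t₀ g) ≤
          17 * (∑ i, ∑ i' ∈ univ.erase i,
            gg (fun y => pp.u t₀ ((g : E ≃ₐ[k] E) y)) (al t₀ g) d p q (x i) (x i') +
            4 * (Fintype.card (II (J * l ^ r * b) b) : ℝ) ^ 2 * R t₀ g / (d : ℝ) ^ n)) := by
    intro t₀ ht₀ g
    by_cases hts : t₀ ∈ S
    · obtain ⟨m, h1, h2, h3, h4, h5⟩ := hR3 t₀ g (II (J * l ^ r * b) b) x hxi hxP
        (by rw [hcJ]; exact (le_max_left _ _).trans hN1)
      exact ⟨m, h1, fun i => (h2 i).1, fun i => (h2 i).2, fun h => absurd hts h,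
        fun _ => ⟨h3, fun ha hb => (h4 ha hb).1, h5 n (by rw [hcJ]; exact_mod_cast hdn)⟩⟩
    · obtain ⟨m, h1, h2, h3⟩ := hR2 t₀ g (hR0 t₀ ht₀ hts g)
      exact ⟨m, h1, fun i => (h2 _ (hxP i)).1, fun i => (h2 _ (hxP i)).2,
        fun _ i i' hne => h3 _ (hxP i) _ (hxP i') (fun h => hne (hxi h)), fun h => absurd h hts⟩
  choose! m hm1 hm2 hm3 hm4 hm5 using hm
  let o : k → G → II (J * l ^ r * b) b → II (J * l ^ r * b) b → ℤ := fun t₀ g i i' =>
    pp.u t₀ ((g : E ≃ₐ[k] E) ((m t₀ g).app (x i) - (m t₀ g).app (x i')))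
  let M : ℕ := (S₀ ×ˢ ((univ : Finset G) ×ˢ ((univ : Finset (II (J * l ^ r * b) b)) ×ˢ
    (univ : Finset (II (J * l ^ r * b) b))))).sup fun w => (o w.1 w.2.1 w.2.2.1 w.2.2.2).toNat
  have hM : ∀ t₀ ∈ S₀, ∀ g i i', o t₀ g i i' ≤ M := by
    intro t₀ ht₀ g i i'
    have h1 : (o t₀ g i i').toNat ≤ M :=
      Finset.le_sup (f := fun w : k × G × II (J * l ^ r * b) b × II (J * l ^ r * b) b =>
        (o w.1 w.2.1 w.2.2.1 w.2.2.2).toNat) (b := (t₀, g, i, i'))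
        (Finset.mk_mem_product ht₀ (Finset.mk_mem_product (Finset.mem_univ _)
          (Finset.mk_mem_product (Finset.mem_univ _) (Finset.mem_univ _))))
    exact (Int.self_le_toNat _).trans (by exact_mod_cast h1)
  have hnn : ∀ t₀ ∈ S₀, ∀ g i i', i ≠ i' → 0 ≤ o t₀ g i i' := by
    intro t₀ ht₀ g i i' hne
    refine isPl_nonneg (pp.pl t₀) ?_ ?_
    · have h1 := app_ne (m t₀ g) (hm1 t₀ ht₀ g) (hm2 t₀ ht₀ g i) (hm2 t₀ ht₀ g i')
        (fun h => hne (hxi h))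
      rw [Ne, map_eq_zero]
      exact h1
    · rw [map_sub, map_sub, sub_eq_add_neg]
      refine (IsUltrametricDist.norm_add_le_max _ _).trans (max_le (hm3 t₀ ht₀ g i) ?_)
      rw [norm_neg]
      exact hm3 t₀ ht₀ g i'
  have hlp : 0 < l ^ r := pow_pos hl.pos r
  have hmain := hmi k E Λ t' s G hΛ hG' pp S S₀ hSS (J * l ^ r * b) b J l r M
    (C₀ * ((J * l ^ r * b + 1) * (b + 1)) * Wt)
    (Nat.mul_pos (Nat.mul_pos (by omega) hlp) hb) hb hJ x hxi (fun i => hUi _ (hxP i))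
    (fun i j hne => hUd _ (hxP i) _ (hxP j) (fun h => hne (hxi h))) m hm1 hm2 hm3
    (fun t₀ ht₀ g i j _ => hM t₀ ht₀ g i j) τ hτt hτg hxΓ
  refine hN k S₀ S hSS hSne G hcard pp.e heS R
    (fun t₀ g => ∑ i, ∑ i' ∈ univ.erase i,
      gg (fun y => pp.u t₀ ((g : E ≃ₐ[k] E) y)) (al t₀ g) d p q (x i) (x i')) M
    (C₀ * ((J * l ^ r * b + 1) * (b + 1)) * Wt) o
    (fun t₀ ht₀ g i i' hne => ⟨hnn t₀ ht₀ g i i' hne, hM t₀ ht₀ g i i'⟩) ?_ ?_ ?_ hSR ?_ ?_ ?_ ?_ ?_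
  · exact sum_pairs S₀ (fun (t₀ : k) (g : G) i i' =>
      gg (fun y => pp.u t₀ ((g : E ≃ₐ[k] E) y)) (al t₀ g) d p q (x i) (x i')) pp.e
      (fun i i' hii => hsum _ (hxP i) _ (hxP i') (fun h => hii (hxi h)))
  · intro t₀ _ g
    have h1 := hR1 t₀ g (II (J * l ^ r * b) b) x hxi hxP n (by rw [hcJ]; exact_mod_cast hdn)
    rw [hcJ] at h1
    exact h1
  · intro t₀ ht₀ hts g
    refine Finset.sum_congr rfl fun i _ => Finset.sum_congr rfl fun i' hi' => ?_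
    exact (hm4 t₀ ht₀ g hts i i' (Finset.ne_of_mem_erase hi').symm).symm
  · intro t₀ ht₀ g i
    have h1 := (hm5 t₀ (hSS ht₀) g ht₀).1 i
    rw [hcJ] at h1
    exact h1
  · intro t₀ ht₀ g h1 h2
    have h3 := (hm5 t₀ (hSS ht₀) g ht₀).2.1 h1
    rw [hcJ] at h3
    exact h3 h2
  · intro t₀ ht₀ g
    have h3 := (hm5 t₀ (hSS ht₀) g ht₀).2.2
    rw [hcJ] at h3
    exact h3
  · push_cast
    have h1 : (0 : ℝ) ≤ C₀ * (((J : ℝ) * (l : ℝ) ^ r * b + 1) * ((b : ℝ) + 1)) := by positivity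
    calc (S.card : ℝ) * (C₀ * (((J : ℝ) * (l : ℝ) ^ r * b + 1) * ((b : ℝ) + 1)) * Wt)
        = C₀ * (((J : ℝ) * (l : ℝ) ^ r * b + 1) * ((b : ℝ) + 1)) * ((S.card : ℝ) * Wt) := by ring
      _ ≤ C₀ * (((J : ℝ) * (l : ℝ) ^ r * b + 1) * ((b : ℝ) + 1)) *
          (ν.factorial * ∑ t₀ ∈ S, ∑ g, (R t₀ g : ℝ) / pp.e t₀) := by gcongr
      _ = _ := by ring
  · rw [hcard] at hmain
    exact hmain

end Pool.Agent.Q135.SP
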