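import Pool.Agent.Q41.SP.Stm6

/-!
# (Y11) Levels along orbits
-/

namespace Pool.Agent.Q135.SP

open Finset Polynomial
open Pool.Agent.Q41.SU Pool.Agent.Q41.SP

universe u

lemma form {l h e : ℕ} {E : Type u} [Field E] [Fact l.Prime] [CharP E l] {p₀ p₁ : E[X]}
    (hp : p₀.map (iterateFrobenius E l h) = expand E (l ^ e) p₁) :
    p₁ = (p₀.contract (l ^ e)).map (iterateFrobenius E l h) := by
  have hne : l ^ e ≠ 0 := pow_ne_zero _ (Fact.out : l.Prime).ne_zero
  rw [map_contract hne, hp, contract_expand _ hne]

lemma val {l h m : ℕ} {E : Type u} [Field E] [Fact l.Prime] [CharP E l] (P : E[X]) (w : E)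
    (hm : m ≤ h) : (P.map (iterateFrobenius E l h)).eval (w ^ l ^ m) =
      ((P.map (iterateFrobenius E l (h - m))).eval w) ^ l ^ m := by
  have h1 : P.map (iterateFrobenius E l h) =
      (P.map (iterateFrobenius E l (h - m))).map (iterateFrobenius E l m) := by
    rw [Polynomial.map_map, ← iterateFrobenius_add]
    congr 2; omega
  rw [h1, ← iterateFrobenius_def, eval_map_apply, iterateFrobenius_def]

/-- (Y11) Levels along orbits -/
theorem jumpP : S_jumpP := by
  intro l h e j E _ _ _ p₀ q₀ p₁ q₁ hp hq x hx ⟨w, hw⟩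
  have hl : l.Prime := Fact.out
  have hp1 := form hp
  have hq1 := form hq
  set P := p₀.contract (l ^ e)
  set Q := q₀.contract (l ^ e)
  have hV : x ^ l ^ e = w ^ l ^ (j + e) := by rw [hw, ← pow_mul, ← pow_add]
  have evp : (p₀.map (iterateFrobenius E l h)).eval x = p₁.eval (x ^ l ^ e) := by
    rw [hp, expand_eval]
  have evq : (q₀.map (iterateFrobenius E l h)).eval x = q₁.eval (x ^ l ^ e) := by
    rw [hq, expand_eval]
  constructor
  · intro hje
    refine ⟨(P.map (iterateFrobenius E l (h - (j + e)))).eval w /
      (Q.map (iterateFrobenius E l (h - (j + e)))).eval w, ?_⟩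
    rw [evp, evq, hV, hp1, hq1, val P w hje, val Q w hje, div_pow]
  · intro hm ⟨v, hv⟩ hnot
    set m := j + e + 1 with hmdef
    set V := x ^ l ^ e with hVdef
    set y := v ^ l ^ m with hydef
    -- the reduced polynomial
    set R : E[X] := P.map (iterateFrobenius E l (h - m)) -
      C v * Q.map (iterateFrobenius E l (h - m)) with hR
    have hRm : R.map (iterateFrobenius E l m) = p₁ - C y * q₁ := by
      rw [hR, Polynomial.map_sub, Polynomial.map_mul, map_C, Polynomial.map_map,
        Polynomial.map_map, ← iterateFrobenius_add, show m + (h - m) = h by omega, ← hp1, ← hq1,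
        iterateFrobenius_def]
    have hq0 : q₁.eval V ≠ 0 := by rw [← evq]; exact hx
    have hpy : p₁.eval V = y * q₁.eval V := by
      have : p₁.eval V / q₁.eval V = y := by rw [← evp, ← evq]; exact hv
      rw [← this]; field_simp
    have hroot : (R.map (iterateFrobenius E l m)).eval V = 0 := by
      rw [hRm]; simp [hpy]
    -- the minimal polynomial
    have hwn : ∀ b : E, b ^ l ≠ w := by
      intro b hb
      apply hnot
      refine ⟨b, ?_⟩
      rw [hw, ← hb, ← pow_mul, pow_succ, mul_comm]
    have hirr : Irreducible (X ^ l - C w : E[X]) := X_pow_sub_C_irreducible_of_prime hl hwn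
    have hmap : (X ^ l - C w : E[X]).map (iterateFrobenius E l m) = (X - C V) ^ l := by
      have : (X - C V : E[X]) ^ l = X ^ l - C V ^ l := sub_pow_char _ _
      rw [this, Polynomial.map_sub, Polynomial.map_pow, map_X, map_C, iterateFrobenius_def,
        ← C_pow, hV, ← pow_mul, ← pow_succ]
    have hdvd : (X ^ l - C w : E[X]) ∣ R := by
      by_contra hnd
      have hco : IsCoprime (X ^ l - C w : E[X]) R := (hirr.coprime_iff_not_dvd).2 hnd
      have hco' := hco.map (mapRingHom (iterateFrobenius E l m))
      rw [coe_mapRingHom, hmap] at hco'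
      obtain ⟨a, b, hab⟩ := hco'
      have := congrArg (eval V) hab
      simp [hroot, hl.ne_zero] at this
    have hdvd' : (X - C V) ^ l ∣ p₁ - C y * q₁ := by
      rw [← hmap, ← hRm]
      exact Polynomial.map_dvd _ hdvd
    obtain ⟨Ψ, hΨ⟩ := hdvd'
    have hder : (derivative (p₁ - C y * q₁)).eval V = 0 := by
      rw [hΨ, derivative_mul, derivative_pow]
      simp [hl.ne_zero]
    have hder' : (derivative p₁).eval V = y * (derivative q₁).eval V := by
      rw [derivative_sub, derivative_C_mul, eval_sub, eval_mul, eval_C] at hder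
      linear_combination hder
    unfold wr
    rw [eval_sub, eval_mul, eval_mul, hder', hpy]
    ring

end Pool.Agent.Q135.SP
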