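import Pool.Agent.Q41.SP.Stm6

/-!
# (Y4) Capture: numerical parts
-/

namespace Pool.Agent.Q135.SP

open Finset Polynomial
open Pool.Agent.Q41.SU Pool.Agent.Q41.SP

universe u

/-- the bound for the number of bad places -/
lemma num_cap {A Γ : Type*} [Fintype Γ] (S T₀ : Finset A) (hS : S ⊆ T₀) (e : A → ℕ) (F : ℕ)
    (he : ∀ t ∈ T₀, 1 ≤ e t ∧ e t ≤ F) (R : A → Γ → ℕ) (hR : ∀ t ∈ S, ∃ g, 1 ≤ R t g) (Wt : ℕ)
    (hW : 1 ≤ Wt) (hF : 1 ≤ F) (c κ X : ℝ) (hc : 0 < c) (hX : 0 < X) (hκ0 : 0 ≤ κ)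
    (En : A → Γ → ℝ)
    (hsum : ∑ t ∈ T₀, ∑ g, En t g / e t = 0) (hlow : ∀ t ∈ S, ∀ g, -(4 * X * R t g * κ) ≤ En t g)
    (hout : ∀ t ∈ T₀, t ∉ S → ∀ g, 0 ≤ En t g) (hκ : 8 * F * Wt * κ ≤ c)
    (h2 : ∀ t ∈ S, ∀ g, 1 ≤ R t g → En t g ≤ c * X * R t g → 2 * (F : ℝ) * Wt ≤ R t g) :
    (S.card : ℝ) * Wt ≤ ∑ t ∈ S, ∑ g, (R t g : ℝ) / e t := by
  classical
  set ℰ : ℝ := ∑ t ∈ S, ∑ g, (R t g : ℝ) / e t with hℰ
  have hW' : (1 : ℝ) ≤ Wt := by exact_mod_cast hW
  have hF' : (1 : ℝ) ≤ F := by exact_mod_cast hF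
  have hep : ∀ t ∈ S, (0 : ℝ) < e t := fun t ht => by
    exact_mod_cast (he t (hS ht)).1
  let β : A → Γ → ℝ := fun t g => if c * X * R t g < En t g then 1 else 0
  -- pointwise lower bound
  have h3 : ∀ t ∈ S, (1 : ℝ) ≤ ∑ g, ((F : ℝ) * (β t g * R t g / e t) +
      (R t g : ℝ) / e t / (2 * Wt)) := by
    intro t ht
    obtain ⟨g, hg⟩ := hR t ht
    have he0 := hep t ht
    have heF : (e t : ℝ) ≤ F := by exact_mod_cast (he t (hS ht)).2
    have hnn : ∀ g, (0 : ℝ) ≤ (F : ℝ) * (β t g * R t g / e t) + (R t g : ℝ) / e t / (2 * Wt) := by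
      intro g
      have : (0 : ℝ) ≤ β t g := by simp only [β]; split_ifs <;> norm_num
      positivity
    refine le_trans ?_ (Finset.single_le_sum (fun g _ => hnn g) (Finset.mem_univ g))
    have hg' : (1 : ℝ) ≤ R t g := by exact_mod_cast hg
    by_cases hb : c * X * R t g < En t g
    · have hβ : β t g = 1 := by simp [β, hb]
      rw [hβ, one_mul]
      have h4 : (1 : ℝ) ≤ (F : ℝ) * (R t g / e t) := by
        rw [mul_div_assoc', le_div_iff₀ he0]
        nlinarith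
      have h5 : (0 : ℝ) ≤ (R t g : ℝ) / e t / (2 * Wt) := by positivity
      linarith
    · have hβ : β t g = 0 := by simp [β, hb]
      rw [hβ]
      have h4 := h2 t ht g hg (not_lt.1 hb)
      have h5 : (1 : ℝ) ≤ (R t g : ℝ) / e t / (2 * Wt) := by
        rw [le_div_iff₀ (by positivity), le_div_iff₀ he0]
        nlinarith
      simp only [zero_mul, zero_div, mul_zero, zero_add]
      exact h5
  have h4 : (S.card : ℝ) ≤ (F : ℝ) * ∑ t ∈ S, ∑ g, β t g * R t g / e t + ℰ / (2 * Wt) := by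
    calc (S.card : ℝ) = ∑ t ∈ S, (1 : ℝ) := by simp
      _ ≤ ∑ t ∈ S, ∑ g, ((F : ℝ) * (β t g * R t g / e t) + (R t g : ℝ) / e t / (2 * Wt)) :=
          Finset.sum_le_sum h3
      _ = _ := by
          rw [hℰ, Finset.mul_sum, Finset.sum_div, ← Finset.sum_add_distrib]
          refine Finset.sum_congr rfl fun t _ => ?_
          rw [Finset.mul_sum, Finset.sum_div, ← Finset.sum_add_distrib]
  -- the bad pairs
  have h5 : c * X * ∑ t ∈ S, ∑ g, β t g * R t g / e t ≤ 4 * X * κ * ℰ := by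
    have h6 : ∑ t ∈ S, ∑ g, En t g / e t ≤ 0 := by
      have h7 := Finset.sum_sdiff (f := fun t => ∑ g, En t g / e t) hS
      rw [hsum] at h7
      have h8 : 0 ≤ ∑ t ∈ T₀ \ S, ∑ g, En t g / e t := by
        refine Finset.sum_nonneg fun t ht => Finset.sum_nonneg fun g _ => ?_
        obtain ⟨h1, h1'⟩ := Finset.mem_sdiff.1 ht
        exact div_nonneg (hout t h1 h1' g) (Nat.cast_nonneg _)
      linarith
    have h7 : ∀ t ∈ S, ∀ g, c * X * (β t g * R t g / e t) ≤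
        En t g / e t + 4 * X * κ * ((R t g : ℝ) / e t) := by
      intro t ht g
      have he0 := hep t ht
      have h8 := hlow t ht g
      have h9 : c * X * (β t g * R t g) ≤ En t g + 4 * X * κ * R t g := by
        by_cases hb : c * X * R t g < En t g
        · have hβ : β t g = 1 := by simp [β, hb]
          rw [hβ, one_mul]
          have : 0 ≤ 4 * X * κ * R t g := by positivity
          linarith
        · have hβ : β t g = 0 := by simp [β, hb]
          rw [hβ]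
          nlinarith
      calc c * X * (β t g * R t g / e t) = c * X * (β t g * R t g) / e t := by ring
        _ ≤ (En t g + 4 * X * κ * R t g) / e t := by gcongr
        _ = _ := by ring
    calc c * X * ∑ t ∈ S, ∑ g, β t g * R t g / e t
        = ∑ t ∈ S, ∑ g, c * X * (β t g * R t g / e t) := by
          rw [Finset.mul_sum]
          exact Finset.sum_congr rfl fun t _ => by rw [Finset.mul_sum]
      _ ≤ ∑ t ∈ S, ∑ g, (En t g / e t + 4 * X * κ * ((R t g : ℝ) / e t)) :=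
          Finset.sum_le_sum fun t ht => Finset.sum_le_sum fun g _ => h7 t ht g
      _ = ∑ t ∈ S, ∑ g, En t g / e t + 4 * X * κ * ℰ := by
          rw [hℰ, Finset.mul_sum, ← Finset.sum_add_distrib]
          refine Finset.sum_congr rfl fun t _ => ?_
          rw [Finset.mul_sum, ← Finset.sum_add_distrib]
      _ ≤ 4 * X * κ * ℰ := by linarith
  have hℰ0 : 0 ≤ ℰ := Finset.sum_nonneg fun t _ => Finset.sum_nonneg fun g _ => by positivity
  set U := ∑ t ∈ S, ∑ g, β t g * R t g / e t with hU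
  have h6 : c * U ≤ 4 * κ * ℰ := by
    have : X * (c * U) ≤ X * (4 * κ * ℰ) := by nlinarith
    exact le_of_mul_le_mul_left this hX
  have h7 : c * (2 * F * Wt * U) ≤ c * ℰ := by
    calc c * (2 * F * Wt * U) = 2 * F * Wt * (c * U) := by ring
      _ ≤ 2 * F * Wt * (4 * κ * ℰ) := by gcongr
      _ = (8 * F * Wt * κ) * ℰ := by ring
      _ ≤ c * ℰ := by gcongr
  have h8 : 2 * F * Wt * U ≤ ℰ := le_of_mul_le_mul_left h7 hc
  have h9 : (S.card : ℝ) * Wt ≤ ((F : ℝ) * U + ℰ / (2 * Wt)) * Wt := by gcongr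
  have h10 : ((F : ℝ) * U + ℰ / (2 * Wt)) * Wt = F * Wt * U + ℰ / 2 := by
    field_simp
  rw [h10] at h9
  linarith

/-- the lower bound for the resultant -/
lemma lower_R (hq : S_quad) {J : Type} [Fintype J] [DecidableEq J] (o : J → J → ℤ)
    (hs : ∀ l m, o l m = o m l) (h0 : ∀ l m, l ≠ m → 0 ≤ o l m)
    (hu : ∀ l m n, l ≠ m → m ≠ n → l ≠ n → min (o l m) (o m n) ≤ o l n) (L : ℕ) (hL : 1 ≤ L)
    (hd : ∀ a b c e : J, a ≠ b → a ≠ c → a ≠ e → b ≠ c → b ≠ e → c ≠ e →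
      (L : ℤ) ∣ o a b + o c e - o a c - o b e)
    (hc : ∀ l, 2 * cnt o 1 l ≤ Fintype.card J) (h4 : 4 ≤ Fintype.card J) (R : ℕ) (hR : 1 ≤ R)
    (D η : ℝ) (hD : 0 ≤ D)
    (hlow : η * (Fintype.card J : ℝ) ^ 2 * R ≤ ∑ l, ∑ m ∈ univ.erase l, (o l m : ℝ))
    (hup : ∑ l, ∑ m ∈ univ.erase l, (o l m : ℝ) ≤ 30 * (Fintype.card J : ℝ) ^ 2 * R)
    (htr : ∑ l, ∑ m ∈ univ.erase l, max 0 ((o l m : ℝ) - 33 * D * R) ≤
      η / 2 * (Fintype.card J : ℝ) ^ 2 * R) :
    (L : ℝ) * η ≤ 31680 * D * R := by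
  classical
  set N : ℝ := (Fintype.card J : ℝ) with hN
  have hN4 : (4 : ℝ) ≤ N := by rw [hN]; exact_mod_cast h4
  have hR' : (1 : ℝ) ≤ R := by exact_mod_cast hR
  set pr := (univ.filter fun x : J × J => x.1 ≠ x.2 ∧ 1 ≤ o x.1 x.2).card with hpr
  have hqq := hq J o hs h0 hu L hL hd hc h4
  have hqq' : (L : ℝ) * pr ≤ 16 * ∑ l, ∑ m ∈ univ.erase l, (o l m : ℝ) := by
    exact_mod_cast hqq
  have hcard : (pr : ℝ) = ∑ l, ∑ m ∈ univ.erase l, (if 1 ≤ o l m then (1 : ℝ) else 0) := by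
    have h1 : (pr : ℝ) = ∑ x : J × J, (if x.1 ≠ x.2 ∧ 1 ≤ o x.1 x.2 then (1 : ℝ) else 0) := by
      rw [hpr, Finset.card_filter]
      push_cast
      rfl
    rw [h1, Fintype.sum_prod_type]
    refine Finset.sum_congr rfl fun l _ => ?_
    rw [← Finset.add_sum_erase _ _ (Finset.mem_univ l)]
    simp only [ne_eq, not_true_eq_false, false_and, if_false, zero_add]
    refine Finset.sum_congr rfl fun m hm => ?_
    have : l ≠ m := (Finset.ne_of_mem_erase hm).symm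
    simp [this]
  have hT : 0 ≤ 33 * D * R := by positivity
  have h1 : ∑ l, ∑ m ∈ univ.erase l, (o l m : ℝ) ≤
      ∑ l, ∑ m ∈ univ.erase l, max 0 ((o l m : ℝ) - 33 * D * R) + 33 * D * R * pr := by
    rw [hcard, Finset.mul_sum, ← Finset.sum_add_distrib]
    refine Finset.sum_le_sum fun l _ => ?_
    rw [Finset.mul_sum, ← Finset.sum_add_distrib]
    refine Finset.sum_le_sum fun m _ => ?_
    by_cases h : 1 ≤ o l m
    · rw [if_pos h, mul_one]
      have := le_max_right 0 ((o l m : ℝ) - 33 * D * R)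
      linarith
    · rw [if_neg h, mul_zero, add_zero]
      have h2 : (o l m : ℝ) ≤ 0 := by
        have : o l m ≤ 0 := by omega
        exact_mod_cast this
      exact h2.trans (le_max_left _ _)
  have h2 : η / 2 * N ^ 2 * R ≤ 33 * D * R * pr := by linarith
  have h3 : η * N ^ 2 ≤ 66 * D * pr := by
    have : R * (η * N ^ 2) ≤ R * (66 * D * pr) := by nlinarith
    exact le_of_mul_le_mul_left this (by linarith)
  have hL0 : (0 : ℝ) ≤ L := Nat.cast_nonneg _
  have h5 : (L : ℝ) * (η * N ^ 2) ≤ 66 * D * (480 * N ^ 2 * R) := by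
    calc (L : ℝ) * (η * N ^ 2) ≤ L * (66 * D * pr) := by gcongr
      _ = 66 * D * (L * pr) := by ring
      _ ≤ 66 * D * (16 * (30 * N ^ 2 * R)) := by
          have : (L : ℝ) * pr ≤ 16 * (30 * N ^ 2 * R) := hqq'.trans (by linarith)
          gcongr
      _ = _ := by ring
  have hN2 : 0 < N ^ 2 := by positivity
  have h6 : N ^ 2 * ((L : ℝ) * η) ≤ N ^ 2 * (31680 * D * R) := by nlinarith
  exact le_of_mul_le_mul_left h6 hN2

end Pool.Agent.Q135.SP
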