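import Pool.Agent.Q177.SU.Core
import Pool.Agent.Q135.SP.CapNum

/-!
# (Y4) Capture: valuations
-/

namespace Pool.Agent.Q135.SP

open Finset Polynomial
open Pool.Agent.Q41.SU Pool.Agent.Q41.SP

universe u

variable {k E Λ : Type u} [Field k] [Field E] [Algebra k E] [NormedField Λ] [Algebra k Λ]

lemma pl_inj {ι : E →ₐ[k] Λ} {e : ℕ} {w : E → ℤ} (h : IsPl k ι e w) {x : E} (hx : x ≠ 0) (n : ℤ)
    (hn : ‖ι x‖ = Real.exp (-((n : ℝ) / e))) : w x = n := by
  have he : (0 : ℝ) < e := by exact_mod_cast h.he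
  rw [h.norm x hx] at hn
  have h1 := Real.exp_injective hn
  have h2 : (w x : ℝ) / e = n / e := by linarith
  have h3 : (w x : ℝ) = n := by
    rw [div_left_inj' he.ne'] at h2
    exact h2
  exact_mod_cast h3

lemma pl_mul {ι : E →ₐ[k] Λ} {e : ℕ} {w : E → ℤ} (h : IsPl k ι e w) {x y : E} (hx : x ≠ 0)
    (hy : y ≠ 0) : w (x * y) = w x + w y := by
  apply pl_inj h (mul_ne_zero hx hy)
  rw [map_mul, norm_mul, h.norm x hx, h.norm y hy, ← Real.exp_add]
  congr 1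
  push_cast
  ring

lemma pl_inv {ι : E →ₐ[k] Λ} {e : ℕ} {w : E → ℤ} (h : IsPl k ι e w) {x : E} (hx : x ≠ 0) :
    w x⁻¹ = - w x := by
  apply pl_inj h (inv_ne_zero hx)
  rw [map_inv₀, norm_inv, h.norm x hx, ← Real.exp_neg]
  congr 1
  push_cast
  ring

lemma pl_div {ι : E →ₐ[k] Λ} {e : ℕ} {w : E → ℤ} (h : IsPl k ι e w) {x y : E} (hx : x ≠ 0)
    (hy : y ≠ 0) : w (x / y) = w x - w y := by
  rw [div_eq_mul_inv, pl_mul h hx (inv_ne_zero hy), pl_inv h hy, sub_eq_add_neg]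

lemma pl_pow {ι : E →ₐ[k] Λ} {e : ℕ} {w : E → ℤ} (h : IsPl k ι e w) {x : E} (hx : x ≠ 0)
    (n : ℕ) : w (x ^ n) = n * w x := by
  apply pl_inj h (pow_ne_zero _ hx)
  rw [map_pow, norm_pow, h.norm x hx, ← Real.exp_nat_mul]
  congr 1
  push_cast
  ring

lemma pl_neg {ι : E →ₐ[k] Λ} {e : ℕ} {w : E → ℤ} (h : IsPl k ι e w) (x : E) (hx : x ≠ 0) :
    w (-x) = w x := by
  apply pl_inj h (neg_ne_zero.2 hx)
  rw [map_neg, norm_neg, h.norm x hx]

lemma pl_add [IsUltrametricDist Λ] {ι : E →ₐ[k] Λ} {e : ℕ} {w : E → ℤ} (h : IsPl k ι e w)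
    {x y : E} (hx : x ≠ 0) (hy : y ≠ 0) (hxy : x + y ≠ 0) : min (w x) (w y) ≤ w (x + y) := by
  have he : (0 : ℝ) < e := by exact_mod_cast h.he
  have h1 := IsUltrametricDist.norm_add_le_max (ι x) (ι y)
  rw [← map_add, h.norm _ hxy, h.norm _ hx, h.norm _ hy] at h1
  rcases le_max_iff.1 h1 with h2 | h2
  · rw [Real.exp_le_exp, neg_le_neg_iff, div_le_div_iff_of_pos_right he] at h2
    exact (min_le_left _ _).trans (by exact_mod_cast h2)
  · rw [Real.exp_le_exp, neg_le_neg_iff, div_le_div_iff_of_pos_right he] at h2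
    exact (min_le_right _ _).trans (by exact_mod_cast h2)

/-- the cross ratio is invariant -/
lemma cross_inv (m : Mb E) (hm : m.det ≠ 0) {a b c e : E} (ha : m.den a ≠ 0) (hb : m.den b ≠ 0)
    (hc : m.den c ≠ 0) (he : m.den e ≠ 0) (hac : a ≠ c) (hbe : b ≠ e) :
    (m.app a - m.app b) * (m.app c - m.app e) / ((m.app a - m.app c) * (m.app b - m.app e)) =
      (a - b) * (c - e) / ((a - c) * (b - e)) := by
  have key : ∀ {x y : E}, m.den x ≠ 0 → m.den y ≠ 0 →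
      m.app x - m.app y = m.det * (x - y) / (m.den x * m.den y) := by
    intro x y hx hy
    unfold Mb.app
    rw [div_sub_div _ _ hx hy]
    congr 1
    unfold Mb.den Mb.det
    ring
  rw [key ha hb, key hc he, key ha hc, key hb he]
  have h1 := sub_ne_zero.2 hac
  have h2 := sub_ne_zero.2 hbe
  field_simp

/-- the divisibility of the cross differences -/
lemma cross_dvd {ι : E →ₐ[k] Λ} {e : ℕ} {w : E → ℤ} (h : IsPl k ι e w) (l j : ℕ)
    [Fact l.Prime] [CharP E l] (m : Mb E) (hm : m.det ≠ 0) {a b c f : E} (ha : m.den a ≠ 0)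
    (hb : m.den b ≠ 0) (hc : m.den c ≠ 0) (hf : m.den f ≠ 0) (hab : a ≠ b) (hac : a ≠ c)
    (hbf : b ≠ f) (hcf : c ≠ f) (ra : ∃ y, a = y ^ l ^ j) (rb : ∃ y, b = y ^ l ^ j)
    (rc : ∃ y, c = y ^ l ^ j) (rf : ∃ y, f = y ^ l ^ j) :
    ((l ^ j : ℕ) : ℤ) ∣ w (m.app a - m.app b) + w (m.app c - m.app f) -
      w (m.app a - m.app c) - w (m.app b - m.app f) := by
  have n1 := Pool.Agent.Q177.SU.app_ne m hm ha hb hab
  have n2 := Pool.Agent.Q177.SU.app_ne m hm hc hf hcf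
  have n3 := Pool.Agent.Q177.SU.app_ne m hm ha hc hac
  have n4 := Pool.Agent.Q177.SU.app_ne m hm hb hf hbf
  have e1 := cross_inv m hm ha hb hc hf hac hbf
  obtain ⟨a', rfl⟩ := ra
  obtain ⟨b', rfl⟩ := rb
  obtain ⟨c', rfl⟩ := rc
  obtain ⟨f', rfl⟩ := rf
  haveI : ExpChar E l := ExpChar.prime Fact.out
  have e2 : (a' ^ l ^ j - b' ^ l ^ j) * (c' ^ l ^ j - f' ^ l ^ j) /
      ((a' ^ l ^ j - c' ^ l ^ j) * (b' ^ l ^ j - f' ^ l ^ j)) =
      ((a' - b') * (c' - f') / ((a' - c') * (b' - f'))) ^ l ^ j := by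
    rw [div_pow, mul_pow, mul_pow, sub_pow_expChar_pow, sub_pow_expChar_pow,
      sub_pow_expChar_pow, sub_pow_expChar_pow]
  rw [e2] at e1
  set X := (a' - b') * (c' - f') / ((a' - c') * (b' - f')) with hX
  have hX0 : X ≠ 0 := by
    intro h0
    rw [h0, zero_pow (pow_ne_zero _ (Fact.out : l.Prime).ne_zero)] at e1
    exact div_ne_zero (mul_ne_zero n1 n2) (mul_ne_zero n3 n4) e1
  have e3 : w (m.app (a' ^ l ^ j) - m.app (b' ^ l ^ j)) + w (m.app (c' ^ l ^ j) - m.app (f' ^ l ^ j)) -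
      w (m.app (a' ^ l ^ j) - m.app (c' ^ l ^ j)) - w (m.app (b' ^ l ^ j) - m.app (f' ^ l ^ j)) =
      (l ^ j : ℕ) * w X := by
    rw [← pl_pow h hX0, ← e1, pl_div h (mul_ne_zero n1 n2) (mul_ne_zero n3 n4),
      pl_mul h n1 n2, pl_mul h n3 n4]
    ring
  rw [e3]
  exact dvd_mul_right _ _

/-- the lower bound for the resultant at a place, from the family `B` -/
lemma place_R [IsUltrametricDist Λ] (hq : S_quad) {ι : E →ₐ[k] Λ} {e : ℕ} {w : E → ℤ}
    (h : IsPl k ι e w) (l j : ℕ) [Fact l.Prime] [CharP E l] (m : Mb E) (hm : m.det ≠ 0)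
    {J : Type} [Fintype J] [DecidableEq J] (x : J → E) (hx : Function.Injective x)
    (hden : ∀ i, m.den (x i) ≠ 0 ∧ ‖ι (m.app (x i))‖ ≤ 1)
    (hr : ∀ i, ∃ y, x i = y ^ l ^ j)
    (hc : ∀ i, 2 * cnt (fun i i' => w (m.app (x i) - m.app (x i'))) 1 i ≤ Fintype.card J)
    (h4 : 4 ≤ Fintype.card J) (R : ℕ) (hR : 1 ≤ R) (D η : ℝ) (hD : 0 ≤ D)
    (hlow : η * (Fintype.card J : ℝ) ^ 2 * R ≤
      ∑ i, ∑ i' ∈ univ.erase i, (w (m.app (x i) - m.app (x i')) : ℝ))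
    (hup : ∑ i, ∑ i' ∈ univ.erase i, (w (m.app (x i) - m.app (x i')) : ℝ) ≤
      30 * (Fintype.card J : ℝ) ^ 2 * R)
    (htr : ∑ i, ∑ i' ∈ univ.erase i,
      max 0 ((w (m.app (x i) - m.app (x i')) : ℝ) - 33 * D * R) ≤
      η / 2 * (Fintype.card J : ℝ) ^ 2 * R) :
    (l : ℝ) ^ j * η ≤ 31680 * D * R := by
  classical
  have hne : ∀ {i i' : J}, i ≠ i' → m.app (x i) - m.app (x i') ≠ 0 := fun {i i'} hii =>
    Pool.Agent.Q177.SU.app_ne m hm (hden i).1 (hden i').1 (fun h0 => hii (hx h0))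
  have key := lower_R hq (fun i i' => w (m.app (x i) - m.app (x i'))) ?_ ?_ ?_ (l ^ j)
    (Nat.one_le_pow _ _ (Fact.out : l.Prime).pos) ?_ hc h4 R hR D η hD hlow hup htr
  · push_cast at key
    exact key
  · intro i i'
    by_cases hii : i = i'
    · rw [hii]
    · have := pl_neg h _ (hne hii)
      rw [neg_sub] at this
      exact this.symm
  · intro i i' hii
    refine Pool.Agent.Q177.SU.isPl_nonneg h (hne hii) ?_
    rw [map_sub, sub_eq_add_neg]
    refine (IsUltrametricDist.norm_add_le_max _ _).trans (max_le (hden i).2 ?_)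
    rw [norm_neg]
    exact (hden i').2
  · intro a b c hab hbc hac
    have := pl_add h (hne hab) (hne hbc) (by rw [sub_add_sub_cancel]; exact hne hac)
    rw [sub_add_sub_cancel] at this
    exact this
  · intro a b c f hab hac haf hbc hbf hcf
    exact cross_dvd h l j m hm (hden a).1 (hden b).1 (hden c).1 (hden f).1
      (fun h0 => hab (hx h0)) (fun h0 => hac (hx h0)) (fun h0 => hbf (hx h0))
      (fun h0 => hcf (hx h0)) (hr a) (hr b) (hr c) (hr f)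

end Pool.Agent.Q135.SP
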